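import Mathlib

/-!
# The dyadic maximal inequality (Rademacher-Menshov), copied from `Pool.Agent.X1.MobA` of helper1
-/

set_option autoImplicit false

namespace Pool.Agent.X35.ES

open Finset

lemma dyadic1 (J : ℕ) : ∀ (f : ℕ → ℂ) (r : ℕ), r < 2 ^ J →
    ‖∑ n ∈ range r, f n‖ ≤ ∑ i ∈ range J,
      Real.sqrt (∑ j ∈ range (2 ^ (J - i)), ‖∑ n ∈ Ico (j * 2 ^ i) (j * 2 ^ i + 2 ^ i), f n‖ ^ 2) := by
  induction J with
  | zero =>
    intro f r hr
    have : r = 0 := by simpa using hr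
    subst this
    simp
  | succ J ih =>
    intro f r hr
    have hpow : 2 ^ (J + 1) = 2 ^ J + 2 ^ J := by ring
    rcases Nat.lt_or_ge r (2 ^ J) with h | h
    · refine (ih f r h).trans ?_
      rw [Finset.sum_range_succ]
      refine le_add_of_le_of_nonneg (Finset.sum_le_sum fun i hi => ?_) (Real.sqrt_nonneg _)
      apply Real.sqrt_le_sqrt
      apply Finset.sum_le_sum_of_subset_of_nonneg
      · intro j hj
        rw [mem_range] at hj ⊢
        exact hj.trans_le (Nat.pow_le_pow_right (by norm_num) (by omega))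
      · intro j _ _; positivity
    · obtain ⟨r', rfl⟩ := Nat.exists_eq_add_of_le h
      have hr' : r' < 2 ^ J := by omega
      have h1 := ih (fun n => f (2 ^ J + n)) r' hr'
      rw [Finset.sum_range_add]
      refine (norm_add_le _ _).trans ?_
      rw [Finset.sum_range_succ, add_comm]
      apply add_le_add
      · refine h1.trans (Finset.sum_le_sum fun i hi => ?_)
        rw [mem_range] at hi
        apply Real.sqrt_le_sqrt
        -- shift of the blocks
        have h2 : ∀ j, ∑ n ∈ Ico (j * 2 ^ i) (j * 2 ^ i + 2 ^ i), f (2 ^ J + n) =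
            ∑ n ∈ Ico ((2 ^ (J - i) + j) * 2 ^ i) ((2 ^ (J - i) + j) * 2 ^ i + 2 ^ i), f n := by
          intro j
          have e1 : (2 ^ (J - i) + j) * 2 ^ i = 2 ^ J + j * 2 ^ i := by
            rw [add_mul, ← pow_add]
            congr 2
            omega
          rw [e1, Finset.sum_Ico_eq_sum_range, Finset.sum_Ico_eq_sum_range,
            Nat.add_sub_cancel_left, Nat.add_sub_cancel_left]
          apply Finset.sum_congr rfl
          intro n _
          rw [add_assoc]
        simp only [h2]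
        have e2 : ∑ j ∈ range (2 ^ (J - i)),
            ‖∑ n ∈ Ico ((2 ^ (J - i) + j) * 2 ^ i) ((2 ^ (J - i) + j) * 2 ^ i + 2 ^ i), f n‖ ^ 2 =
            ∑ j ∈ Ico (2 ^ (J - i)) (2 ^ (J - i) + 2 ^ (J - i)),
              ‖∑ n ∈ Ico (j * 2 ^ i) (j * 2 ^ i + 2 ^ i), f n‖ ^ 2 := by
          rw [Finset.sum_Ico_eq_sum_range, Nat.add_sub_cancel_left]
        rw [e2]
        apply Finset.sum_le_sum_of_subset_of_nonneg
        · intro j hj
          rw [mem_Ico] at hj
          rw [mem_range, show J + 1 - i = (J - i) + 1 by omega, pow_succ, mul_two]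
          exact hj.2
        · intro j _ _; positivity
      · have h3 : ‖∑ n ∈ range (2 ^ J), f n‖ = Real.sqrt (‖∑ n ∈ range (2 ^ J), f n‖ ^ 2) := by
          rw [Real.sqrt_sq (norm_nonneg _)]
        rw [h3]
        apply Real.sqrt_le_sqrt
        have h4 : ‖∑ n ∈ range (2 ^ J), f n‖ ^ 2 =
            ‖∑ n ∈ Ico (0 * 2 ^ J) (0 * 2 ^ J + 2 ^ J), f n‖ ^ 2 := by
          rw [zero_mul, zero_add, Finset.range_eq_Ico]
        rw [h4]
        exact Finset.single_le_sum
          (f := fun j => ‖∑ n ∈ Ico (j * 2 ^ J) (j * 2 ^ J + 2 ^ J), f n‖ ^ 2)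
          (fun j _ => by positivity) (mem_range.2 (by positivity))

/-- the dyadic maximal inequality -/
lemma dyadic2 (J : ℕ) (f : ℕ → ℂ) (r : ℕ) (hr : r < 2 ^ J) :
    ‖∑ n ∈ range r, f n‖ ^ 2 ≤ J * ∑ i ∈ range J,
      ∑ j ∈ range (2 ^ (J - i)), ‖∑ n ∈ Ico (j * 2 ^ i) (j * 2 ^ i + 2 ^ i), f n‖ ^ 2 := by
  have h1 := dyadic1 J f r hr
  have h2 := pow_le_pow_left₀ (norm_nonneg _) h1 2
  refine h2.trans ?_
  have h3 := sq_sum_le_card_mul_sum_sq (s := range J) (f := fun i =>
    Real.sqrt (∑ j ∈ range (2 ^ (J - i)), ‖∑ n ∈ Ico (j * 2 ^ i) (j * 2 ^ i + 2 ^ i), f n‖ ^ 2))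
  refine h3.trans (le_of_eq ?_)
  rw [card_range]
  congr 1
  apply Finset.sum_congr rfl
  intro i _
  rw [Real.sq_sqrt (Finset.sum_nonneg fun j _ => by positivity)]

end Pool.Agent.X35.ES
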