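import Mathlib

/-!
# The supremum of a trigonometric polynomial over short intervals, on average over the intervals
-/

set_option autoImplicit false

namespace Pool.Agent.X35.ES

open Complex MeasureTheory Finset Set intervalIntegral

/-- `e(x) = exp(2 π i x)` -/
noncomputable def e (x : ℝ) : ℂ := Complex.exp (2 * Real.pi * I * (x : ℂ))

theorem e_norm (x : ℝ) : ‖e x‖ = 1 := by
  unfold e
  rw [show 2 * (Real.pi : ℂ) * I * (x : ℂ) = ((2 * Real.pi * x : ℝ) : ℂ) * I by push_cast; ring]
  exact Complex.norm_exp_ofReal_mul_I _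

theorem e_add (x y : ℝ) : e (x + y) = e x * e y := by
  unfold e
  rw [← Complex.exp_add]
  congr 1
  push_cast
  ring

/-- the trigonometric polynomial -/
noncomputable def T (b : ℕ → ℂ) (L : ℕ) (x : ℝ) : ℂ := ∑ l ∈ Finset.range L, b l * e (l * x)

/-- the coefficients of the derivative -/
noncomputable def D (b : ℕ → ℂ) (l : ℕ) : ℂ := b l * (2 * Real.pi * I * l)

theorem e_deriv (l : ℕ) (x : ℝ) : HasDerivAt (fun x : ℝ => e (l * x)) ((2 * Real.pi * I * l) * e (l * x)) x := by
  have h1 : HasDerivAt (fun x : ℝ => 2 * (Real.pi : ℂ) * I * (((l : ℝ) * x : ℝ) : ℂ)) (2 * Real.pi * I * l) x := by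
    have h2 : HasDerivAt (fun x : ℝ => (x : ℂ)) 1 x := Complex.ofRealCLM.hasDerivAt
    have h3 := h2.const_mul (2 * (Real.pi : ℂ) * I * l)
    rw [mul_one] at h3
    refine h3.congr_of_eventuallyEq (Filter.Eventually.of_forall fun t => ?_)
    push_cast
    ring
  have h4 := h1.cexp
  unfold e
  exact h4.congr_deriv (mul_comm _ _)

theorem T_deriv (b : ℕ → ℂ) (L : ℕ) (x : ℝ) : HasDerivAt (fun x => T b L x) (T (D b) L x) x := by
  unfold T
  have h : ∀ l ∈ Finset.range L, HasDerivAt (fun x : ℝ => b l * e (l * x)) (D b l * e (l * x)) x := by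
    intro l _
    have h1 := (e_deriv l x).const_mul (b l)
    unfold D
    rwa [mul_assoc]
  exact HasDerivAt.fun_sum h

theorem T_cont (b : ℕ → ℂ) (L : ℕ) : Continuous (fun x => T b L x) :=
  continuous_iff_continuousAt.2 fun x => (T_deriv b L x).continuousAt

/-- the density -/
noncomputable def Phi (b : ℕ → ℂ) (L : ℕ) (h lam : ℝ) (t : ℝ) : ℝ := (1 / h + lam) * ‖T b L t‖ ^ 2 + lam⁻¹ * ‖T (D b) L t‖ ^ 2

theorem Phi_cont (b : ℕ → ℂ) (L : ℕ) (h lam : ℝ) : Continuous (Phi b L h lam) := by
  unfold Phi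
  exact (continuous_const.mul ((T_cont b L).norm.pow 2)).add (continuous_const.mul ((T_cont (D b) L).norm.pow 2))

/-- **the Sobolev inequality on a short interval** -/
theorem sup_le (b : ℕ → ℂ) (L : ℕ) (c h lam : ℝ) (hh : 0 < h) (hlam : 0 < lam) (x : ℝ) (hx1 : c ≤ x) (hx2 : x ≤ c + h) :
    ‖T b L x‖ ^ 2 ≤ ∫ t in c..(c + h), Phi b L h lam t := by
  set f : ℝ → ℝ := fun t => ‖T b L t‖ ^ 2 with hf
  set f' : ℝ → ℝ := fun t => 2 * inner ℝ (T b L t) (T (D b) L t) with hf'
  set ψ : ℝ → ℝ := fun t => lam * ‖T b L t‖ ^ 2 + lam⁻¹ * ‖T (D b) L t‖ ^ 2 with hψ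
  have hd : ∀ t, HasDerivAt f (f' t) t := fun t => (T_deriv b L t).norm_sq
  have hfc : Continuous f := (T_cont b L).norm.pow 2
  have hf'c : Continuous f' := continuous_const.mul ((T_cont b L).inner (T_cont (D b) L))
  have hψc : Continuous ψ := (continuous_const.mul ((T_cont b L).norm.pow 2)).add (continuous_const.mul ((T_cont (D b) L).norm.pow 2))
  have hψ0 : ∀ t, 0 ≤ ψ t := fun t => by
    rw [hψ]
    positivity
  have hbound : ∀ t, ‖f' t‖ ≤ ψ t := by
    intro t
    rw [hf', hψ]
    simp only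
    rw [Real.norm_eq_abs, abs_mul, abs_of_pos (by norm_num : (0 : ℝ) < 2)]
    have h1 := abs_real_inner_le_norm (T b L t) (T (D b) L t)
    set p := ‖T b L t‖
    set q := ‖T (D b) L t‖
    have h2 : 2 * (p * q) ≤ lam * p ^ 2 + lam⁻¹ * q ^ 2 := by
      have h3 : 0 ≤ lam⁻¹ * (lam * p - q) ^ 2 := by positivity
      have h4 : lam⁻¹ * (lam * p - q) ^ 2 = lam * p ^ 2 + lam⁻¹ * q ^ 2 - 2 * (p * q) := by
        field_simp
        ring
      linarith
    linarith
  -- the oscillation
  have hosc : ∀ t, c ≤ t → t ≤ c + h → f x ≤ f t + ∫ s in c..(c + h), ψ s := by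
    intro t ht1 ht2
    have h1 : ∫ s in t..x, f' s = f x - f t :=
      integral_eq_sub_of_hasDerivAt (fun s _ => hd s) (hf'c.intervalIntegrable _ _)
    have h2 : ‖∫ s in t..x, f' s‖ ≤ ∫ s in Set.uIoc t x, ‖f' s‖ := norm_integral_le_integral_norm_uIoc
    have h3 : ∫ s in Set.uIoc t x, ‖f' s‖ ≤ ∫ s in Set.uIoc t x, ψ s := by
      apply setIntegral_mono_on
      · exact (hf'c.norm.intervalIntegrable t x).def'
      · exact (hψc.intervalIntegrable t x).def'
      · exact measurableSet_uIoc
      · intro s _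
        exact hbound s
    have h4 : ∫ s in Set.uIoc t x, ψ s ≤ ∫ s in Ioc c (c + h), ψ s := by
      apply setIntegral_mono_set
      · exact (intervalIntegrable_iff_integrableOn_Ioc_of_le (by linarith)).1 (hψc.intervalIntegrable _ _)
      · exact Filter.Eventually.of_forall fun s => hψ0 s
      · apply Filter.Eventually.of_forall
        intro s hs
        have hs' : s ∈ Set.uIoc t x := hs
        rw [Set.mem_uIoc] at hs'
        show s ∈ Ioc c (c + h)
        rw [Set.mem_Ioc]
        rcases hs' with hs' | hs'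
        · exact ⟨by linarith [hs'.1], by linarith [hs'.2]⟩
        · exact ⟨by linarith [hs'.1], by linarith [hs'.2]⟩
    rw [integral_of_le (by linarith : c ≤ c + h)]
    rw [h1] at h2
    have h5 : f x - f t ≤ ‖f x - f t‖ := le_trans (le_abs_self _) (le_of_eq (Real.norm_eq_abs _).symm)
    linarith
  have hint : ∫ t in c..(c + h), f x ≤ ∫ t in c..(c + h), (f t + ∫ s in c..(c + h), ψ s) := by
    apply integral_mono_on (by linarith)
    · exact continuous_const.intervalIntegrable _ _
    · exact (hfc.add continuous_const).intervalIntegrable _ _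
    · intro t ht
      exact hosc t ht.1 ht.2
  rw [intervalIntegral.integral_const, intervalIntegral.integral_add (hfc.intervalIntegrable _ _) (continuous_const.intervalIntegrable _ _),
    intervalIntegral.integral_const] at hint
  simp only [add_sub_cancel_left, smul_eq_mul] at hint
  have hfin : f x ≤ (1 / h) * (∫ t in c..(c + h), f t) + ∫ s in c..(c + h), ψ s := by
    have h1 : f x = (1 / h) * (h * f x) := by field_simp
    rw [h1]
    have h2 := mul_le_mul_of_nonneg_left hint (show 0 ≤ 1 / h by positivity)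
    refine h2.trans (le_of_eq ?_)
    field_simp
  refine hfin.trans (le_of_eq ?_)
  have hc1 : Continuous (fun t => (1 / h) * f t) := continuous_const.mul hfc
  rw [← intervalIntegral.integral_const_mul, ← intervalIntegral.integral_add (hc1.intervalIntegrable c (c + h))
    (hψc.intervalIntegrable c (c + h))]
  apply intervalIntegral.integral_congr
  intro t _
  simp only [hf, hψ]
  unfold Phi
  ring

/-- orthogonality -/
theorem orth (b : ℕ → ℂ) (L : ℕ) (y : ℝ) : ∫ t in y..(y + 1), ‖T b L t‖ ^ 2 = ∑ l ∈ Finset.range L, ‖b l‖ ^ 2 := by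
  have hexp : ∀ k : ℤ, ∫ t in y..(y + 1), Complex.exp (2 * Real.pi * I * k * t) = if k = 0 then 1 else 0 := by
    intro k
    by_cases hk : k = 0
    · subst hk
      simp
    · rw [if_neg hk]
      have hc : (2 * Real.pi * I * k : ℂ) ≠ 0 := by
        apply mul_ne_zero
        · exact Complex.two_pi_I_ne_zero
        · exact_mod_cast hk
      rw [integral_exp_mul_complex hc]
      have h1 : Complex.exp (2 * Real.pi * I * k * ((y + 1 : ℝ) : ℂ)) = Complex.exp (2 * Real.pi * I * k * (y : ℂ)) := by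
        rw [Complex.exp_eq_exp_iff_exists_int]
        refine ⟨k, ?_⟩
        push_cast
        ring
      rw [h1, sub_self, zero_div]
  have hsq : ∀ t : ℝ, ((‖T b L t‖ ^ 2 : ℝ) : ℂ) = ∑ l ∈ Finset.range L, ∑ l' ∈ Finset.range L,
      (b l * (starRingEnd ℂ) (b l')) * Complex.exp (2 * Real.pi * I * (((l : ℤ) - (l' : ℤ) : ℤ) : ℂ) * t) := by
    intro t
    rw [← Complex.normSq_eq_norm_sq, ← Complex.mul_conj]
    unfold T
    rw [map_sum, Finset.sum_mul_sum]
    apply Finset.sum_congr rfl
    intro l _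
    apply Finset.sum_congr rfl
    intro l' _
    rw [map_mul]
    unfold e
    rw [← Complex.exp_conj]
    have h1 : (starRingEnd ℂ) (2 * (Real.pi : ℂ) * I * (((l' : ℝ) * t : ℝ) : ℂ)) = -(2 * (Real.pi : ℂ) * I * (((l' : ℝ) * t : ℝ) : ℂ)) := by
      simp only [map_mul, Complex.conj_ofReal, Complex.conj_I, map_ofNat]
      ring
    rw [h1]
    calc b l * Complex.exp (2 * Real.pi * I * (((l : ℝ) * t : ℝ) : ℂ)) *
          ((starRingEnd ℂ) (b l') * Complex.exp (-(2 * (Real.pi : ℂ) * I * (((l' : ℝ) * t : ℝ) : ℂ))))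
        = (b l * (starRingEnd ℂ) (b l')) * (Complex.exp (2 * Real.pi * I * (((l : ℝ) * t : ℝ) : ℂ)) *
          Complex.exp (-(2 * (Real.pi : ℂ) * I * (((l' : ℝ) * t : ℝ) : ℂ)))) := by ring
      _ = _ := by
          rw [← Complex.exp_add]
          congr 2
          push_cast
          ring
  have h1 : ((∫ t in y..(y + 1), ‖T b L t‖ ^ 2 : ℝ) : ℂ) = ∑ l ∈ Finset.range L, ((‖b l‖ ^ 2 : ℝ) : ℂ) := by
    rw [← intervalIntegral.integral_ofReal]
    simp only [hsq]
    rw [intervalIntegral.integral_finsetSum (fun l _ => by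
      apply Continuous.intervalIntegrable
      fun_prop)]
    apply Finset.sum_congr rfl
    intro l hl
    rw [intervalIntegral.integral_finsetSum (fun l' _ => by
      apply Continuous.intervalIntegrable
      fun_prop)]
    simp only [intervalIntegral.integral_const_mul, hexp]
    rw [Finset.sum_eq_single l]
    · rw [sub_self, if_pos rfl, mul_one, Complex.mul_conj, Complex.normSq_eq_norm_sq]
    · intro l' _ hne
      rw [if_neg (by omega), mul_zero]
    · intro h
      exact absurd hl h
  exact_mod_cast h1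

end Pool.Agent.X35.ES
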