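import Mathlib
import Pool.Agent.X35.ES.Sob
import Pool.Agent.X35.ES.Dy

/-!
# The maximal partial sums of a trigonometric polynomial over the cells of a grid
-/

set_option autoImplicit false

namespace Pool.Agent.X35.ES

open Complex MeasureTheory Finset

theorem D_norm (b : ℕ → ℂ) (hb : ∀ l, ‖b l‖ ≤ 1) (L l : ℕ) (hl : l < L) : ‖D b l‖ ^ 2 ≤ (2 * Real.pi * L) ^ 2 := by
  apply pow_le_pow_left₀ (norm_nonneg _)
  unfold D
  rw [norm_mul, norm_mul, norm_mul, norm_mul, Complex.norm_I, Complex.norm_real, Complex.norm_natCast, mul_one, Real.norm_eq_abs,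
    abs_of_pos Real.pi_pos, Complex.norm_ofNat]
  have h1 := hb l
  have h2 : (l : ℝ) ≤ L := by exact_mod_cast hl.le
  have h3 := Real.pi_pos
  calc ‖b l‖ * (2 * Real.pi * l) ≤ 1 * (2 * Real.pi * L) := by
        apply mul_le_mul h1 _ (by positivity) (by norm_num)
        exact mul_le_mul_of_nonneg_left h2 (by positivity)
    _ = 2 * Real.pi * L := one_mul _

/-- the sum over the cells of `m` periods -/
theorem cells (b : ℕ → ℂ) (hb : ∀ l, ‖b l‖ ≤ 1) (L : ℕ) (hL : 1 ≤ L) (M m : ℕ) (hM : 1 ≤ M) (y : ℝ) (x : ℕ → ℝ)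
    (hx : ∀ k < m * M, y + k / M ≤ x k ∧ x k ≤ y + ((k : ℝ) + 1) / M) :
    ∑ k ∈ range (m * M), ‖T b L (x k)‖ ^ 2 ≤ m * (M * L + 13 * (L : ℝ) ^ 2) := by
  have hM0 : (0 : ℝ) < M := by exact_mod_cast hM
  have hL0 : (0 : ℝ) < L := by exact_mod_cast hL
  set lam : ℝ := 2 * Real.pi * L with hlam
  have hpi := Real.pi_pos
  have hlam0 : 0 < lam := by positivity
  set P : ℝ → ℝ := Phi b L (1 / M) lam with hP
  have hPc : Continuous P := Phi_cont b L _ _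
  have h1 : ∑ k ∈ range (m * M), ‖T b L (x k)‖ ^ 2 ≤
      ∑ k ∈ range (m * M), ∫ t in (fun k : ℕ => y + (k : ℝ) / M) k..(fun k : ℕ => y + (k : ℝ) / M) (k + 1), P t := by
    apply sum_le_sum
    intro k hk
    rw [mem_range] at hk
    obtain ⟨h2, h3⟩ := hx k hk
    have h4 := sup_le b L (y + k / M) (1 / M) lam (by positivity) hlam0 (x k) h2 (by
      refine h3.trans (le_of_eq ?_)
      ring)
    refine h4.trans (le_of_eq ?_)
    congr 1
    push_cast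
    ring
  rw [intervalIntegral.sum_integral_adjacent_intervals (fun k _ => hPc.intervalIntegrable _ _)] at h1
  have h2 : ∫ t in (y + ((0 : ℕ) : ℝ) / M)..(y + ((m * M : ℕ) : ℝ) / M), P t =
      ∑ q ∈ range m, ∫ t in (fun q : ℕ => y + (q : ℝ)) q..(fun q : ℕ => y + (q : ℝ)) (q + 1), P t := by
    rw [intervalIntegral.sum_integral_adjacent_intervals (fun k _ => hPc.intervalIntegrable _ _)]
    congr 1
    · push_cast
      ring
    · push_cast
      field_simp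
  have h3 : ∀ q : ℕ, ∫ t in (fun q : ℕ => y + (q : ℝ)) q..(fun q : ℕ => y + (q : ℝ)) (q + 1), P t ≤ M * L + 13 * (L : ℝ) ^ 2 := by
    intro q
    have e1 : ∫ t in (fun q : ℕ => y + (q : ℝ)) q..(fun q : ℕ => y + (q : ℝ)) (q + 1), P t = ∫ t in (y + q)..(y + q + 1), P t := by
      congr 1
      push_cast
      ring
    rw [e1]
    have hc1 : Continuous (fun t => (1 / (1 / (M : ℝ)) + lam) * ‖T b L t‖ ^ 2) := continuous_const.mul ((T_cont b L).norm.pow 2)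
    have hc2 : Continuous (fun t => lam⁻¹ * ‖T (D b) L t‖ ^ 2) := continuous_const.mul ((T_cont (D b) L).norm.pow 2)
    have e2 : ∫ t in (y + q)..(y + q + 1), P t = (M + lam) * ∑ l ∈ range L, ‖b l‖ ^ 2 + lam⁻¹ * ∑ l ∈ range L, ‖D b l‖ ^ 2 := by
      have e3 : ∫ t in (y + q)..(y + q + 1), P t = (∫ t in (y + q)..(y + q + 1), (1 / (1 / (M : ℝ)) + lam) * ‖T b L t‖ ^ 2) +
          ∫ t in (y + q)..(y + q + 1), lam⁻¹ * ‖T (D b) L t‖ ^ 2 := by
        rw [← intervalIntegral.integral_add (hc1.intervalIntegrable _ _) (hc2.intervalIntegrable _ _)]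
        rfl
      rw [e3, intervalIntegral.integral_const_mul, intervalIntegral.integral_const_mul, orth, orth, one_div_one_div]
    rw [e2]
    have h4 : ∑ l ∈ range L, ‖b l‖ ^ 2 ≤ L := by
      calc ∑ l ∈ range L, ‖b l‖ ^ 2 ≤ ∑ l ∈ range L, (1 : ℝ) := by
            apply sum_le_sum
            intro l _
            exact pow_le_one₀ (norm_nonneg _) (hb l)
        _ = L := by rw [sum_const, card_range, nsmul_eq_mul, mul_one]
    have h5 : ∑ l ∈ range L, ‖D b l‖ ^ 2 ≤ L * lam ^ 2 := by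
      calc ∑ l ∈ range L, ‖D b l‖ ^ 2 ≤ ∑ l ∈ range L, lam ^ 2 := by
            apply sum_le_sum
            intro l hl
            exact D_norm b hb L l (mem_range.1 hl)
        _ = L * lam ^ 2 := by rw [sum_const, card_range, nsmul_eq_mul]
    calc (M + lam) * ∑ l ∈ range L, ‖b l‖ ^ 2 + lam⁻¹ * ∑ l ∈ range L, ‖D b l‖ ^ 2
        ≤ (M + lam) * L + lam⁻¹ * (L * lam ^ 2) := by
          apply add_le_add
          · exact mul_le_mul_of_nonneg_left h4 (by positivity)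
          · exact mul_le_mul_of_nonneg_left h5 (by positivity)
      _ = M * L + 4 * Real.pi * (L : ℝ) ^ 2 := by
          have : lam⁻¹ * (L * lam ^ 2) = L * lam := by field_simp
          rw [this, hlam]
          ring
      _ ≤ M * L + 13 * (L : ℝ) ^ 2 := by
          have h6 := Real.pi_lt_d2
          have h7 : 4 * Real.pi ≤ 13 := by linarith
          have h8 : 4 * Real.pi * (L : ℝ) ^ 2 ≤ 13 * (L : ℝ) ^ 2 := mul_le_mul_of_nonneg_right h7 (by positivity)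
          linarith
  refine h1.trans ?_
  rw [h2]
  calc ∑ q ∈ range m, ∫ t in (fun q : ℕ => y + (q : ℝ)) q..(fun q : ℕ => y + (q : ℝ)) (q + 1), P t
      ≤ ∑ q ∈ range m, (M * L + 13 * (L : ℝ) ^ 2) := sum_le_sum fun q _ => h3 q
    _ = m * (M * L + 13 * (L : ℝ) ^ 2) := by rw [sum_const, card_range, nsmul_eq_mul]

/-- the partial sums -/
noncomputable def S (a : ℕ → ℂ) (r : ℕ) (x : ℝ) : ℂ := ∑ n ∈ range r, a n * e (n * x)

/-- the blocks -/
theorem block_norm (a : ℕ → ℂ) (u L : ℕ) (x : ℝ) :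
    ‖∑ n ∈ Ico u (u + L), a n * e (n * x)‖ = ‖T (fun l => a (u + l)) L x‖ := by
  have h1 : ∑ n ∈ Ico u (u + L), a n * e (n * x) = e (u * x) * T (fun l => a (u + l)) L x := by
    rw [sum_Ico_eq_sum_range, Nat.add_sub_cancel_left]
    unfold T
    rw [mul_sum]
    apply sum_congr rfl
    intro l _
    have : e (((u + l : ℕ) : ℝ) * x) = e (u * x) * e (l * x) := by
      rw [← e_add]
      congr 1
      push_cast
      ring
    rw [this]
    ring
  rw [h1, norm_mul, e_norm, one_mul]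

/-- **the maximal inequality over the cells** -/
theorem maxi (a : ℕ → ℂ) (ha : ∀ n, ‖a n‖ ≤ 1) (J m : ℕ) (y : ℝ) (x : ℕ → ℝ) (r : ℕ → ℕ) (hr : ∀ k, r k < 2 ^ J)
    (hx : ∀ k < m * 2 ^ J, y + k / ((2 ^ J : ℕ) : ℝ) ≤ x k ∧ x k ≤ y + ((k : ℝ) + 1) / ((2 ^ J : ℕ) : ℝ)) :
    ∑ k ∈ range (m * 2 ^ J), ‖S a (r k) (x k)‖ ^ 2 ≤ 14 * m * (J : ℝ) ^ 2 * 4 ^ J := by
  have h1 : ∑ k ∈ range (m * 2 ^ J), ‖S a (r k) (x k)‖ ^ 2 ≤ ∑ k ∈ range (m * 2 ^ J), (J : ℝ) * ∑ i ∈ range J,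
      ∑ j ∈ range (2 ^ (J - i)), ‖∑ n ∈ Ico (j * 2 ^ i) (j * 2 ^ i + 2 ^ i), a n * e (n * x k)‖ ^ 2 :=
    sum_le_sum fun k _ => dyadic2 J (fun n => a n * e (n * x k)) (r k) (hr k)
  refine h1.trans ?_
  rw [← mul_sum, sum_comm]
  have h2 : ∀ i ∈ range J, ∑ k ∈ range (m * 2 ^ J), ∑ j ∈ range (2 ^ (J - i)),
      ‖∑ n ∈ Ico (j * 2 ^ i) (j * 2 ^ i + 2 ^ i), a n * e (n * x k)‖ ^ 2 ≤ 14 * m * 4 ^ J := by
    intro i hi
    rw [mem_range] at hi
    rw [sum_comm]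
    have h3 : ∀ j ∈ range (2 ^ (J - i)), ∑ k ∈ range (m * 2 ^ J), ‖∑ n ∈ Ico (j * 2 ^ i) (j * 2 ^ i + 2 ^ i), a n * e (n * x k)‖ ^ 2 ≤
        m * ((2 : ℝ) ^ J * 2 ^ i + 13 * (2 ^ i) ^ 2) := by
      intro j _
      have h4 := cells (fun l => a (j * 2 ^ i + l)) (fun l => ha _) (2 ^ i) Nat.one_le_two_pow (2 ^ J) m Nat.one_le_two_pow y x hx
      simp only [block_norm]
      refine h4.trans (le_of_eq ?_)
      push_cast
      ring
    refine (sum_le_sum h3).trans ?_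
    rw [sum_const, card_range, nsmul_eq_mul]
    push_cast
    have h5 : (2 : ℝ) ^ (J - i) * 2 ^ i = 2 ^ J := by
      rw [← pow_add]
      congr 1
      omega
    have h6 : (2 : ℝ) ^ i ≤ 2 ^ J := pow_le_pow_right₀ (by norm_num) hi.le
    have h7 : (4 : ℝ) ^ J = 2 ^ J * 2 ^ J := by
      rw [← mul_pow]
      norm_num
    calc (2 : ℝ) ^ (J - i) * (m * ((2 : ℝ) ^ J * 2 ^ i + 13 * (2 ^ i) ^ 2))
        = m * ((2 : ℝ) ^ (J - i) * 2 ^ i) * (2 ^ J + 13 * 2 ^ i) := by ring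
      _ ≤ m * (2 : ℝ) ^ J * (2 ^ J + 13 * 2 ^ J) := by
          rw [h5]
          apply mul_le_mul_of_nonneg_left _ (by positivity)
          linarith
      _ = 14 * m * 4 ^ J := by
          rw [h7]
          ring
  calc (J : ℝ) * ∑ i ∈ range J, ∑ k ∈ range (m * 2 ^ J), ∑ j ∈ range (2 ^ (J - i)),
      ‖∑ n ∈ Ico (j * 2 ^ i) (j * 2 ^ i + 2 ^ i), a n * e (n * x k)‖ ^ 2
      ≤ (J : ℝ) * ∑ i ∈ range J, 14 * m * (4 : ℝ) ^ J := mul_le_mul_of_nonneg_left (sum_le_sum h2) (by positivity)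
    _ = 14 * m * (J : ℝ) ^ 2 * 4 ^ J := by
        rw [sum_const, card_range, nsmul_eq_mul]
        ring

open Classical in
/-- the bad cells -/
noncomputable def bad (a : ℕ → ℂ) (J m : ℕ) (y V : ℝ) : Finset ℕ := (range (m * 2 ^ J)).filter fun k =>
  ∃ (x : ℝ) (r : ℕ), (y + k / ((2 ^ J : ℕ) : ℝ) ≤ x ∧ x ≤ y + ((k : ℝ) + 1) / ((2 ^ J : ℕ) : ℝ)) ∧ r < 2 ^ J ∧ V < ‖S a r x‖

/-- **the number of the bad cells** -/
theorem bad_card (a : ℕ → ℂ) (ha : ∀ n, ‖a n‖ ≤ 1) (J m : ℕ) (y V : ℝ) (hV : 0 < V) :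
    ((bad a J m y V).card : ℝ) ≤ 14 * m * (J : ℝ) ^ 2 * 4 ^ J / V ^ 2 := by
  classical
  have hex : ∀ k : ℕ, ∃ (x : ℝ) (r : ℕ), (y + k / ((2 ^ J : ℕ) : ℝ) ≤ x ∧ x ≤ y + ((k : ℝ) + 1) / ((2 ^ J : ℕ) : ℝ)) ∧ r < 2 ^ J ∧
      (k ∈ bad a J m y V → V < ‖S a r x‖) := by
    intro k
    by_cases hk : k ∈ bad a J m y V
    · unfold bad at hk
      rw [mem_filter] at hk
      obtain ⟨_, x, r, h1, h2, h3⟩ := hk
      exact ⟨x, r, h1, h2, fun _ => h3⟩
    · refine ⟨y + k / ((2 ^ J : ℕ) : ℝ), 0, ⟨le_rfl, ?_⟩, by positivity, fun h => absurd h hk⟩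
      have : (k : ℝ) / ((2 ^ J : ℕ) : ℝ) ≤ ((k : ℝ) + 1) / ((2 ^ J : ℕ) : ℝ) := by
        apply div_le_div_of_nonneg_right _ (by positivity)
        linarith
      linarith
  choose x r h1 h2 h3 using hex
  have h4 := maxi a ha J m y x r h2 (fun k _ => h1 k)
  have h5 : ((bad a J m y V).card : ℝ) * V ^ 2 ≤ ∑ k ∈ range (m * 2 ^ J), ‖S a (r k) (x k)‖ ^ 2 := by
    calc ((bad a J m y V).card : ℝ) * V ^ 2 = ∑ k ∈ bad a J m y V, V ^ 2 := by rw [sum_const, nsmul_eq_mul]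
      _ ≤ ∑ k ∈ bad a J m y V, ‖S a (r k) (x k)‖ ^ 2 := by
          apply sum_le_sum
          intro k hk
          exact pow_le_pow_left₀ hV.le (h3 k hk).le 2
      _ ≤ ∑ k ∈ range (m * 2 ^ J), ‖S a (r k) (x k)‖ ^ 2 := by
          apply sum_le_sum_of_subset_of_nonneg
          · unfold bad
            exact filter_subset _ _
          · intro k _ _
            positivity
  rw [le_div_iff₀ (by positivity)]
  exact h5.trans h4

end Pool.Agent.X35.ES
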