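import Mathlib
import Pool.Agent.X35.ES.Max
import Pool.Agent.X124.MD.LsUp

/-!
# The partial sums of a bounded trigonometric series at the points `m x + y` for all `x` outside a set of small Hausdorff dimension
-/

set_option autoImplicit false

namespace Pool.Agent.X35.ES

open Finset Filter Topology
open scoped NNReal ENNReal

/-- the index of a cell -/
abbrev Idx : Type := ℕ × ℝ × ℕ

open Classical in
/-- the bad cells at level `J`: `m ≤ 2 ^ (κ J)`, `y ∈ Y`, and the bad cells for `m`, `y` -/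
noncomputable def idx (a : ℕ → ℂ) (Y : Finset ℝ) (κ V : ℝ) (J : ℕ) : Finset Idx :=
  ((Icc 1 ⌊(2 : ℝ) ^ (κ * J)⌋₊) ×ˢ Y).biUnion fun p => (bad a J p.1 p.2 V).image fun k => (p.1, p.2, k)

theorem mem_idx {a : ℕ → ℂ} {Y : Finset ℝ} {κ V : ℝ} {J : ℕ} {t : Idx} :
    t ∈ idx a Y κ V J ↔ (1 ≤ t.1 ∧ (t.1 : ℝ) ≤ (2 : ℝ) ^ (κ * J)) ∧ t.2.1 ∈ Y ∧ t.2.2 ∈ bad a J t.1 t.2.1 V := by
  classical
  unfold idx
  simp only [mem_biUnion, mem_product, mem_Icc, mem_image]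
  constructor
  · rintro ⟨⟨m, y⟩, ⟨⟨h1, h2⟩, h3⟩, k, hk, rfl⟩
    exact ⟨⟨h1, (Nat.le_floor_iff (by positivity)).1 h2⟩, h3, hk⟩
  · rintro ⟨⟨h1, h2⟩, h3, h4⟩
    exact ⟨(t.1, t.2.1), ⟨⟨h1, (Nat.le_floor_iff (by positivity)).2 h2⟩, h3⟩, t.2.2, h4, rfl⟩

theorem sum_idx (a : ℕ → ℂ) (Y : Finset ℝ) (κ V : ℝ) (J : ℕ) (g : Idx → ℝ) :
    ∑ t ∈ idx a Y κ V J, g t = ∑ m ∈ Icc 1 ⌊(2 : ℝ) ^ (κ * J)⌋₊, ∑ y ∈ Y, ∑ k ∈ bad a J m y V, g (m, y, k) := by
  classical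
  unfold idx
  rw [sum_biUnion]
  · rw [sum_product]
    apply sum_congr rfl
    intro m _
    apply sum_congr rfl
    intro y _
    rw [sum_image]
    intro k _ k' _ h
    simpa using h
  · intro p _ p' _ hne
    rw [Function.onFun, disjoint_left]
    intro t ht ht'
    rw [mem_image] at ht ht'
    obtain ⟨k, _, rfl⟩ := ht
    obtain ⟨k', _, h⟩ := ht'
    apply hne
    simp only [Prod.mk.injEq] at h
    exact Prod.ext h.1.symm h.2.1.symm

/-- **the dimension of the bad points of the unit interval** -/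
theorem dim_bad (a : ℕ → ℂ) (ha : ∀ n, ‖a n‖ ≤ 1) (Y : ℕ → Finset ℝ) (C lam κ η : ℝ) (hC : 0 ≤ C) (hlam : 0 ≤ lam) (hκ : 0 ≤ κ) (hη0 : 0 ≤ η)
    (hη : η ≤ 1 / 2) (hY : ∀ R : ℕ, 1 ≤ R → ((Y R).card : ℝ) ≤ C * (R : ℝ) ^ lam) (s : ℝ≥0) (hs1 : (s : ℝ) ≤ 1)
    (hs : 1 - 2 * η + 2 * κ + lam < (1 + κ) * s) :
    dimH {x : ℝ | ∀ n : ℕ, ∃ J, n ≤ J ∧ ∃ t ∈ idx a (Y (2 ^ J)) κ ((2 : ℝ) ^ (((J : ℝ) - 1) * (1 / 2 + η))) J,
      |x - (2 * (t.2.2 : ℝ) + 1) / (2 * t.1 * 2 ^ J)| ≤ 1 / (2 * t.1 * 2 ^ J)} ≤ s := by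
  set q : ℝ := (1 + κ) * s - (1 - 2 * η + 2 * κ + lam) with hq
  have hq0 : 0 < q := by rw [hq]; linarith
  set θ : ℝ := (2 : ℝ) ^ (-(q / 2)) with hθ
  have hθ0 : 0 < θ := by positivity
  have hθ1 : θ < 1 := Real.rpow_lt_one_of_one_lt_of_neg (by norm_num) (by linarith)
  -- `J² θ^J` is bounded
  obtain ⟨K, hK0, hK⟩ : ∃ K : ℝ, 0 ≤ K ∧ ∀ J : ℕ, (J : ℝ) ^ 2 * θ ^ J ≤ K := by
    have h1 : Tendsto (fun J : ℕ => (J : ℝ) ^ 2 * θ ^ J) atTop (𝓝 0) := by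
      have := tendsto_pow_const_mul_const_pow_of_abs_lt_one 2 (r := θ) (by rw [abs_of_pos hθ0]; exact hθ1)
      exact this
    obtain ⟨K, hK⟩ := h1.bddAbove_range
    refine ⟨max K 0, le_max_right _ _, fun J => (hK ⟨J, rfl⟩).trans (le_max_left _ _)⟩
  refine Pool.Agent.X124.MD.dimH_ls (ι := Idx) (fun J => idx a (Y (2 ^ J)) κ ((2 : ℝ) ^ (((J : ℝ) - 1) * (1 / 2 + η))) J)
    (fun J t => (2 * (t.2.2 : ℝ) + 1) / (2 * t.1 * 2 ^ J)) (fun J t => 1 / (2 * t.1 * 2 ^ J)) (fun J => 1 / 2 ^ J) s θ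
    (56 * C * K) ?_ ?_ ?_ hθ0.le hθ1 (by positivity) ?_
  · intro J t ht
    rw [mem_idx] at ht
    have h1 : (1 : ℝ) ≤ t.1 := by exact_mod_cast ht.1.1
    refine ⟨by positivity, ?_⟩
    apply one_div_le_one_div_of_le (by positivity)
    have h2 : (0 : ℝ) < 2 ^ J := by positivity
    nlinarith
  · intro i j hij
    apply one_div_le_one_div_of_le (by positivity)
    exact pow_le_pow_right₀ (by norm_num) hij
  · have := tendsto_pow_atTop_nhds_zero_of_lt_one (r := (1 / 2 : ℝ)) (by norm_num) (by norm_num)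
    refine this.congr fun n => ?_
    rw [one_div_pow]
  · intro J
    rw [sum_idx]
    set V : ℝ := (2 : ℝ) ^ (((J : ℝ) - 1) * (1 / 2 + η)) with hV
    have hV0 : 0 < V := by positivity
    set N : ℕ := ⌊(2 : ℝ) ^ (κ * J)⌋₊ with hN
    have hNle : (N : ℝ) ≤ (2 : ℝ) ^ (κ * J) := Nat.floor_le (by positivity)
    have hV2 : (4 : ℝ) ^ J / V ^ 2 ≤ 4 * (2 : ℝ) ^ ((J : ℝ) * (1 - 2 * η)) := by
      rw [div_le_iff₀ (by positivity), hV, ← Real.rpow_natCast _ 2, ← Real.rpow_mul (by norm_num), mul_assoc, ← Real.rpow_add (by norm_num)]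
      have h1 : (4 : ℝ) ^ J = (2 : ℝ) ^ (2 * (J : ℝ)) := by
        rw [Real.rpow_mul (by norm_num), Real.rpow_natCast]
        norm_num
      have h2 : (4 : ℝ) = (2 : ℝ) ^ (2 : ℝ) := by norm_num
      rw [h1]
      nth_rewrite 1 [h2]
      rw [← Real.rpow_add (by norm_num)]
      apply Real.rpow_le_rpow_of_exponent_le (by norm_num)
      push_cast
      nlinarith
    have hterm : ∀ m ∈ Icc 1 N, ∀ y ∈ Y (2 ^ J), ∑ k ∈ bad a J m y V, (2 * (1 / (2 * (m : ℝ) * 2 ^ J))) ^ (s : ℝ) ≤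
        56 * (J : ℝ) ^ 2 * (2 : ℝ) ^ ((J : ℝ) * (1 - 2 * η - s)) * (2 : ℝ) ^ (κ * J * (1 - s)) := by
      intro m hm y _
      rw [mem_Icc] at hm
      have hm1 : (1 : ℝ) ≤ m := by exact_mod_cast hm.1
      have hm0 : (0 : ℝ) < m := by linarith
      have hmN : (m : ℝ) ≤ (2 : ℝ) ^ (κ * J) := by
        have : (m : ℝ) ≤ N := by exact_mod_cast hm.2
        linarith
      rw [sum_const, nsmul_eq_mul]
      have h1 := bad_card a ha J m y V hV0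
      have h2 : 2 * (1 / (2 * (m : ℝ) * 2 ^ J)) = (m * (2 : ℝ) ^ (J : ℝ))⁻¹ := by
        rw [Real.rpow_natCast]
        field_simp
      rw [h2, Real.inv_rpow (by positivity), Real.mul_rpow (by positivity) (by positivity), ← Real.rpow_mul (by norm_num)]
      have h3 : 14 * m * (J : ℝ) ^ 2 * 4 ^ J / V ^ 2 ≤ 56 * (J : ℝ) ^ 2 * m * (2 : ℝ) ^ ((J : ℝ) * (1 - 2 * η)) := by
        calc 14 * m * (J : ℝ) ^ 2 * 4 ^ J / V ^ 2 = 14 * m * (J : ℝ) ^ 2 * (4 ^ J / V ^ 2) := by ring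
          _ ≤ 14 * m * (J : ℝ) ^ 2 * (4 * (2 : ℝ) ^ ((J : ℝ) * (1 - 2 * η))) := mul_le_mul_of_nonneg_left hV2 (by positivity)
          _ = 56 * (J : ℝ) ^ 2 * m * (2 : ℝ) ^ ((J : ℝ) * (1 - 2 * η)) := by ring
      have h4 : (m : ℝ) * ((m : ℝ) ^ (s : ℝ))⁻¹ ≤ (2 : ℝ) ^ (κ * J * (1 - s)) := by
        have h5 : (m : ℝ) * ((m : ℝ) ^ (s : ℝ))⁻¹ = (m : ℝ) ^ (1 - (s : ℝ)) := by
          rw [Real.rpow_sub hm0, Real.rpow_one]
          rfl
        rw [h5, Real.rpow_mul (by norm_num)]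
        exact Real.rpow_le_rpow hm0.le hmN (by linarith)
      calc ((bad a J m y V).card : ℝ) * ((m : ℝ) ^ (s : ℝ) * (2 : ℝ) ^ ((J : ℝ) * (s : ℝ)))⁻¹
          ≤ (56 * (J : ℝ) ^ 2 * m * (2 : ℝ) ^ ((J : ℝ) * (1 - 2 * η))) * ((m : ℝ) ^ (s : ℝ) * (2 : ℝ) ^ ((J : ℝ) * (s : ℝ)))⁻¹ :=
            mul_le_mul_of_nonneg_right (h1.trans h3) (by positivity)
        _ = 56 * (J : ℝ) ^ 2 * ((2 : ℝ) ^ ((J : ℝ) * (1 - 2 * η)) * ((2 : ℝ) ^ ((J : ℝ) * (s : ℝ)))⁻¹) * ((m : ℝ) * ((m : ℝ) ^ (s : ℝ))⁻¹) := by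
            rw [mul_inv]
            ring
        _ = 56 * (J : ℝ) ^ 2 * (2 : ℝ) ^ ((J : ℝ) * (1 - 2 * η - s)) * ((m : ℝ) * ((m : ℝ) ^ (s : ℝ))⁻¹) := by
            rw [← Real.rpow_neg (by norm_num), ← Real.rpow_add (by norm_num)]
            congr 3
            ring
        _ ≤ _ := mul_le_mul_of_nonneg_left h4 (by positivity)
    have hYJ := hY (2 ^ J) Nat.one_le_two_pow
    push_cast at hYJ
    have hYJ' : ((Y (2 ^ J)).card : ℝ) ≤ C * (2 : ℝ) ^ ((J : ℝ) * lam) := by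
      refine hYJ.trans (le_of_eq ?_)
      rw [← Real.rpow_natCast 2 J, ← Real.rpow_mul (by norm_num)]
    set B : ℝ := 56 * (J : ℝ) ^ 2 * (2 : ℝ) ^ ((J : ℝ) * (1 - 2 * η - s)) * (2 : ℝ) ^ (κ * J * (1 - s)) with hB
    have hB0 : 0 ≤ B := by positivity
    calc ∑ m ∈ Icc 1 N, ∑ y ∈ Y (2 ^ J), ∑ k ∈ bad a J m y V, (2 * (1 / (2 * (m : ℝ) * 2 ^ J))) ^ (s : ℝ)
        ≤ ∑ m ∈ Icc 1 N, ∑ y ∈ Y (2 ^ J), B := sum_le_sum fun m hm => sum_le_sum fun y hy => hterm m hm y hy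
      _ = (N : ℝ) * (((Y (2 ^ J)).card : ℝ) * B) := by
          rw [sum_const, sum_const, Nat.card_Icc, nsmul_eq_mul, nsmul_eq_mul]
          simp
      _ ≤ (2 : ℝ) ^ (κ * J) * ((C * (2 : ℝ) ^ ((J : ℝ) * lam)) * B) := by
          apply mul_le_mul hNle _ (by positivity) (by positivity)
          exact mul_le_mul_of_nonneg_right hYJ' hB0
      _ = 56 * C * (J : ℝ) ^ 2 * ((2 : ℝ) ^ (κ * J) * (2 : ℝ) ^ ((J : ℝ) * lam) * (2 : ℝ) ^ ((J : ℝ) * (1 - 2 * η - s)) *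
            (2 : ℝ) ^ (κ * J * (1 - s))) := by
          rw [hB]
          ring
      _ = 56 * C * (J : ℝ) ^ 2 * (θ ^ J * θ ^ J) := by
          congr 1
          rw [← Real.rpow_add (by norm_num), ← Real.rpow_add (by norm_num), ← Real.rpow_add (by norm_num), ← Real.rpow_natCast θ J, hθ,
            ← Real.rpow_mul (by norm_num), ← Real.rpow_add (by norm_num)]
          congr 1
          rw [hq]
          ring
      _ = 56 * C * ((J : ℝ) ^ 2 * θ ^ J) * θ ^ J := by ring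
      _ ≤ 56 * C * K * θ ^ J := by
          apply mul_le_mul_of_nonneg_right _ (by positivity)
          exact mul_le_mul_of_nonneg_left (hK J) (by positivity)

/-- periodicity -/
theorem S_int (a : ℕ → ℂ) (r m : ℕ) (x y : ℝ) (z : ℤ) : S a r (m * (x + z) + y) = S a r (m * x + y) := by
  unfold S
  apply sum_congr rfl
  intro n _
  congr 1
  have h1 : e ((n : ℝ) * (m * (x + z) + y)) = e (n * (m * x + y)) * e (((n * m * z : ℤ) : ℝ)) := by
    rw [← e_add]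
    congr 1
    push_cast
    ring
  have h2 : e (((n * m * z : ℤ) : ℝ)) = 1 := by
    unfold e
    rw [Complex.exp_eq_one_iff]
    refine ⟨n * m * z, ?_⟩
    push_cast
    ring
  rw [h1, h2, mul_one]

/-- **the metric theorem** -/
theorem metric (a : ℕ → ℂ) (ha : ∀ n, ‖a n‖ ≤ 1) (Y : ℕ → Finset ℝ) (hmono : Monotone Y) (C lam κ η : ℝ) (hC : 0 ≤ C) (hlam : 0 ≤ lam)
    (hκ : 0 ≤ κ) (hη0 : 0 ≤ η) (hη : η ≤ 1 / 2) (hY : ∀ R : ℕ, 1 ≤ R → ((Y R).card : ℝ) ≤ C * (R : ℝ) ^ lam) :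
    ∃ E : Set ℝ, dimH E ≤ ENNReal.ofReal ((1 - 2 * η + 2 * κ + lam) / (1 + κ)) ∧ ∀ x : ℝ, x ∉ E → ∃ R₀ : ℕ, ∀ R : ℕ, R₀ ≤ R →
      ∀ r ≤ R, ∀ m : ℕ, 1 ≤ m → (m : ℝ) ≤ (R : ℝ) ^ κ → ∀ y ∈ Y R, ‖S a r (m * x + y)‖ ≤ (R : ℝ) ^ (1 / 2 + η) := by
  set D₀ : ℝ := (1 - 2 * η + 2 * κ + lam) / (1 + κ) with hD₀
  have hD0 : 0 ≤ D₀ := by
    rw [hD₀]
    apply div_nonneg <;> linarith
  by_cases hD1 : 1 ≤ D₀
  · refine ⟨Set.univ, ?_, fun x hx => absurd (Set.mem_univ x) hx⟩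
    rw [Real.dimH_univ, ← ENNReal.ofReal_one]
    exact ENNReal.ofReal_le_ofReal hD1
  rw [not_le] at hD1
  set E₀ : Set ℝ := {x : ℝ | ∀ n : ℕ, ∃ J, n ≤ J ∧ ∃ t ∈ idx a (Y (2 ^ J)) κ ((2 : ℝ) ^ (((J : ℝ) - 1) * (1 / 2 + η))) J,
      |x - (2 * (t.2.2 : ℝ) + 1) / (2 * t.1 * 2 ^ J)| ≤ 1 / (2 * t.1 * 2 ^ J)} with hE₀
  have hdim : dimH E₀ ≤ ENNReal.ofReal D₀ := by
    apply le_of_forall_gt
    intro c hc
    obtain ⟨s', hs1, hs2⟩ := exists_between hc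
    have hs'top : s' ≠ ⊤ := ne_top_of_lt hs2
    -- choose an exponent between
    obtain ⟨d, hd1, hd2⟩ := exists_between (lt_min hD1 ((ENNReal.ofReal_lt_iff_lt_toReal hD0 hs'top).1 hs1))
    have hd0 : 0 ≤ d := hD0.trans hd1.le
    have h1 := dim_bad a ha Y C lam κ η hC hlam hκ hη0 hη hY d.toNNReal (by
      rw [Real.coe_toNNReal d hd0]
      exact (hd2.trans_le (min_le_left _ _)).le) (by
      rw [Real.coe_toNNReal d hd0]
      have h2 : (1 + κ) * D₀ = 1 - 2 * η + 2 * κ + lam := by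
        rw [hD₀]
        field_simp
      rw [← h2]
      exact mul_lt_mul_of_pos_left hd1 (by linarith))
    refine lt_of_le_of_lt h1 (lt_trans ?_ hs2)
    have h3 : d < s'.toReal := hd2.trans_le (min_le_right _ _)
    exact (ENNReal.ofReal_lt_iff_lt_toReal hd0 hs'top).2 h3
  refine ⟨{x : ℝ | Int.fract x ∈ E₀}, ?_, fun x hx => ?_⟩
  · have hsub : {x : ℝ | Int.fract x ∈ E₀} ⊆ ⋃ z : ℤ, (fun x : ℝ => x + z) '' E₀ := by
      intro x hx
      rw [Set.mem_iUnion]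
      exact ⟨⌊x⌋, Int.fract x, hx, Int.fract_add_floor x⟩
    refine (dimH_mono hsub).trans ?_
    rw [dimH_iUnion]
    apply iSup_le
    intro z
    have : dimH ((fun x : ℝ => x + z) '' E₀) = dimH E₀ := by
      have hiso : Isometry (fun x : ℝ => x + z) := isometry_add_right (z : ℝ)
      exact hiso.dimH_image _
    rw [this]
    exact hdim
  · have hx' : Int.fract x ∉ E₀ := hx
    rw [hE₀, Set.mem_setOf_eq] at hx'
    push Not at hx'
    obtain ⟨n, hn⟩ := hx'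
    refine ⟨2 ^ n, fun R hR r hr m hm1 hmκ y hy => ?_⟩
    by_contra hcon
    rw [not_le] at hcon
    have hR1 : 1 ≤ R := le_trans Nat.one_le_two_pow hR
    -- the level
    set J : ℕ := Nat.log 2 R + 1 with hJ
    have hR2 : R < 2 ^ J := Nat.lt_pow_succ_log_self (by norm_num) R
    have hR3 : 2 ^ (J - 1) ≤ R := Nat.pow_log_le_self 2 (by omega)
    have hnJ : n ≤ J := by
      have : n ≤ Nat.log 2 R := Nat.le_log_of_pow_le (by norm_num) hR
      omega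
    have hRR2 : (R : ℝ) ≤ 2 ^ J := by exact_mod_cast hR2.le
    have hRR3 : (2 : ℝ) ^ ((J : ℝ) - 1) ≤ R := by
      have h1 : ((2 ^ (J - 1) : ℕ) : ℝ) ≤ R := by exact_mod_cast hR3
      push_cast at h1
      rw [← Real.rpow_natCast] at h1
      refine le_trans (le_of_eq ?_) h1
      congr 1
      rw [hJ]
      push_cast
      simp
    have hm0 : (0 : ℝ) < m := by exact_mod_cast hm1
    set x₁ : ℝ := Int.fract x with hx₁
    have hx10 : 0 ≤ x₁ := Int.fract_nonneg x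
    have hx11 : x₁ < 1 := Int.fract_lt_one x
    have hSx : S a r (m * x + y) = S a r (m * x₁ + y) := by
      have h1 : x = x₁ + (⌊x⌋ : ℤ) := (Int.fract_add_floor x).symm
      have h2 := S_int a r m x₁ y ⌊x⌋
      rw [← h1] at h2
      exact h2
    set k : ℕ := ⌊(m : ℝ) * x₁ * 2 ^ J⌋₊ with hk
    have hk1 : (k : ℝ) ≤ m * x₁ * 2 ^ J := Nat.floor_le (by positivity)
    have hk2 : m * x₁ * 2 ^ J < k + 1 := Nat.lt_floor_add_one _
    have hkM : k < m * 2 ^ J := by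
      have h1 : (k : ℝ) < m * 2 ^ J := by
        have h2 : (m : ℝ) * x₁ * 2 ^ J < m * 2 ^ J := by
          have h3 : (0 : ℝ) < m * 2 ^ J := by positivity
          nlinarith
        linarith
      exact_mod_cast h1
    have h2J : (0 : ℝ) < 2 ^ J := by positivity
    have hbad : ((m, y, k) : Idx) ∈ idx a (Y (2 ^ J)) κ ((2 : ℝ) ^ (((J : ℝ) - 1) * (1 / 2 + η))) J := by
      rw [mem_idx]
      refine ⟨⟨hm1, ?_⟩, hmono hR2.le hy, ?_⟩
      · refine hmκ.trans ?_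
        have h1 : (R : ℝ) ^ κ ≤ ((2 : ℝ) ^ J) ^ κ := Real.rpow_le_rpow (by positivity) hRR2 hκ
        refine h1.trans (le_of_eq ?_)
        rw [← Real.rpow_natCast 2 J, ← Real.rpow_mul (by norm_num), mul_comm]
      · show k ∈ bad a J m y _
        classical
        unfold bad
        rw [mem_filter]
        refine ⟨mem_range.2 hkM, m * x₁ + y, r, ⟨?_, ?_⟩, lt_of_le_of_lt hr hR2, ?_⟩
        · push_cast
          have h1 : (k : ℝ) / 2 ^ J ≤ m * x₁ := by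
            rw [div_le_iff₀ h2J]
            exact hk1
          linarith
        · push_cast
          have h1 : m * x₁ ≤ ((k : ℝ) + 1) / 2 ^ J := by
            rw [le_div_iff₀ h2J]
            exact hk2.le
          linarith
        · rw [← hSx]
          refine lt_of_le_of_lt ?_ hcon
          rw [Real.rpow_mul (by norm_num)]
          exact Real.rpow_le_rpow (by positivity) hRR3 (by positivity)
    have hfar := hn J hnJ (m, y, k) hbad
    simp only at hfar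
    apply absurd hfar
    rw [not_lt]
    have h2 : x₁ - (2 * (k : ℝ) + 1) / (2 * m * 2 ^ J) = (2 * (m * x₁ * 2 ^ J) - (2 * k + 1)) / (2 * m * 2 ^ J) := by
      field_simp
    rw [h2, abs_div, abs_of_pos (show (0 : ℝ) < 2 * m * 2 ^ J by positivity)]
    apply div_le_div_of_nonneg_right _ (by positivity)
    rw [abs_le]
    constructor <;> linarith

end Pool.Agent.X35.ES
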